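import Mathlib
import Pool.Agent.Helper23_LAP.Stmts
import Pool.Agent.Helper23_LAP.Basic

/-!
# LAP, module LOS: what is lost before the coins are tossed (3.3a)
-/

set_option autoImplicit false

namespace Pool.Agent.LAP.H75

open scoped Classical
open Pool.Agent.LAP

variable {α β : Type}

theorem crs_lost {R S : Finset (α × β)} {X X₁ X' : Finset α} {Y Y₁ Y' : Finset β}
    (hX : X \ X' ⊆ X₁) (hY : Y \ Y' ⊆ Y₁) (A : Finset α) (B : Finset β) :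
    crs R X Y A B ⊆ crs (R \ S) X₁ Y₁ A B ∪ (crs R X Y A B ∩ S) ∪
      ((crs R X Y A B).filter fun a => a.1 ∈ X') ∪
      ((crs R X Y A B).filter fun a => a.2 ∈ Y') := by
  intro a ha
  have ha' := ha
  simp only [Finset.mem_union, Finset.mem_inter, Finset.mem_filter]
  by_cases h1 : a ∈ S
  · exact Or.inl (Or.inl (Or.inr ⟨ha, h1⟩))
  by_cases h2 : a.1 ∈ X'
  · exact Or.inl (Or.inr ⟨ha, h2⟩)
  by_cases h3 : a.2 ∈ Y'
  · exact Or.inr ⟨ha, h3⟩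
  refine Or.inl (Or.inl (Or.inl ?_))
  have hx : a.1 ∈ X → a.1 ∈ X₁ := fun h => hX (Finset.mem_sdiff.2 ⟨h, h2⟩)
  have hy : a.2 ∈ Y → a.2 ∈ Y₁ := fun h => hY (Finset.mem_sdiff.2 ⟨h, h3⟩)
  unfold crs ain aou at ha' ⊢
  simp only [Finset.mem_union, Finset.mem_filter, Finset.mem_sdiff] at ha' ⊢
  rcases ha' with ⟨r, ⟨x, na⟩, y, b⟩ | ⟨r, ⟨x, na⟩, y, b⟩
  · exact Or.inl ⟨⟨r, h1⟩, ⟨hx x, na⟩, hy y, b⟩
  · exact Or.inr ⟨⟨r, h1⟩, ⟨hx x, na⟩, hy y, b⟩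

theorem ain_mono {R R₁ : Finset (α × β)} {X X₁ : Finset α} {Y Y₁ : Finset β} (hR : R₁ ⊆ R)
    (hX : X₁ ⊆ X) (hY : Y₁ ⊆ Y) (A : Finset α) (B : Finset β) :
    ain R₁ X₁ Y₁ A B ⊆ ain R X Y A B := by
  intro a ha
  unfold ain at ha ⊢
  simp only [Finset.mem_filter] at ha ⊢
  exact ⟨hR ha.1, ⟨hX ha.2.1.1, ha.2.1.2⟩, hY ha.2.2.1, ha.2.2.2⟩

theorem aou_mono {R R₁ : Finset (α × β)} {X X₁ : Finset α} {Y Y₁ : Finset β} (hR : R₁ ⊆ R)
    (hX : X₁ ⊆ X) (hY : Y₁ ⊆ Y) (A : Finset α) (B : Finset β) :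
    aou R₁ X₁ Y₁ A B ⊆ aou R X Y A B := by
  intro a ha
  unfold aou at ha ⊢
  simp only [Finset.mem_filter] at ha ⊢
  exact ⟨hR ha.1, ⟨hX ha.2.1.1, ha.2.1.2⟩, hY ha.2.2.1, ha.2.2.2⟩

theorem size_lost {X X₁ X' : Finset α} (hX : X \ X' ⊆ X₁) (A : Finset α) :
    (X ∩ A).card ≤ (X₁ ∩ A).card + (X ∩ A ∩ X').card := by
  have : X ∩ A ⊆ (X₁ ∩ A) ∪ (X ∩ A ∩ X') := by
    intro x hx
    rw [Finset.mem_inter] at hx
    simp only [Finset.mem_union, Finset.mem_inter]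
    by_cases h : x ∈ X'
    · exact Or.inr ⟨hx, h⟩
    · exact Or.inl ⟨hX (Finset.mem_sdiff.2 ⟨hx.1, h⟩), hx.2⟩
  exact (Finset.card_le_card this).trans (Finset.card_union_le _ _)

theorem ari1 {cq cq1 C C1 I O I1 O1 D sY sX sY1 sX1 kY w1 w2 g1 g2 : ℝ}
    (hw : cq ≤ cq1 + w1 + w2) (h1 : cq = C) (h2 : cq1 = C1) (h3 : C = I + O) (h4 : C1 = I1 + O1)
    (hi : I1 ≤ I) (h5 : sY * D ≤ (sY1 + kY) * D) (h6 : sX1 * D ≤ sX * D)
    (h7 : kY * D ≤ g1 + g2) :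
    I1 - O1 - D * (sY1 - sX1) ≤ I - O - D * (sY - sX) + w1 + w2 + g1 + g2 := by
  subst h1
  subst h2
  linarith

theorem ari2 {cq cq1 C C1 I O I1 O1 D sY sX sY1 sX1 kX w1 w2 g1 g2 : ℝ}
    (hw : cq ≤ cq1 + w1 + w2) (h1 : cq = C) (h2 : cq1 = C1) (h3 : C = I + O) (h4 : C1 = I1 + O1)
    (ho : O1 ≤ O) (h5 : sX * D ≤ (sX1 + kX) * D) (h6 : sY1 * D ≤ sY * D)
    (h7 : kX * D ≤ g1 + g2) :
    -(I1 - O1 - D * (sY1 - sX1)) ≤ -(I - O - D * (sY - sX)) + w1 + w2 + g1 + g2 := by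
  subst h1
  subst h2
  linarith

theorem los : LOSStmt := by
  intro k L q D δ η r T Rr ζ P P' hp α β _ _ E R X Y X' Y' F smp M hSt hSn hLa hMs hMp hX hY c Q hQ
  have hL : (10 : ℝ) ^ 4 ≤ L := by exact_mod_cast hp.L4
  have hL0 : (0 : ℝ) < L := by linarith [show (0 : ℝ) < 10 ^ 4 by norm_num]
  have hD1 : (1 : ℝ) ≤ D := by
    refine le_trans ?_ hp.D1
    exact one_le_pow₀ (by linarith [show (1 : ℝ) ≤ 10 ^ 4 by norm_num])
  have hD0 : 0 < D := by linarith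
  set A := clA E (L ^ 2) Q with hA
  set B := clB E (L ^ 2) Q with hB
  have hX1 : dom (M c) ⊆ X c := by
    intro x hx
    obtain ⟨y, hy⟩ := mem_dom.1 hx
    exact (hLa.sub c _ (hMs c hy)).2.1
  have hY1 : ran (M c) ⊆ Y c := by
    intro y hy
    obtain ⟨x, hx⟩ := mem_ran.1 hy
    exact (hLa.sub c _ (hMs c hx)).2.2
  have hR1 : R \ allS smp ⊆ R := Finset.sdiff_subset
  have hcr := card_crs R (X c) (Y c) A B
  have hcr1 := card_crs (R \ allS smp) (dom (M c)) (ran (M c)) A B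
  have hi : ((ain (R \ allS smp) (dom (M c)) (ran (M c)) A B).card : ℝ) ≤
      (ain R (X c) (Y c) A B).card := by
    exact_mod_cast Finset.card_le_card (ain_mono hR1 hX1 hY1 A B)
  have ho : ((aou (R \ allS smp) (dom (M c)) (ran (M c)) A B).card : ℝ) ≤
      (aou R (X c) (Y c) A B).card := by
    exact_mod_cast Finset.card_le_card (aou_mono hR1 hX1 hY1 A B)
  have hk1 := hSn.k1 c Q hQ
  have hk2 := hSn.k2 c Q hQ
  have hm1 := hLa.m1 c Q hQ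
  rw [← hA, ← hB] at hk1 hk2 hm1
  have hcq : cq E R (X c) (Y c) L Q = ((crs R (X c) (Y c) A B).card : ℝ) := rfl
  have hcq1 : cq E (R \ allS smp) (dom (M c)) (ran (M c)) L Q =
      ((crs (R \ allS smp) (dom (M c)) (ran (M c)) A B).card : ℝ) := rfl
  have hlost : ((crs R (X c) (Y c) A B).card : ℝ) ≤
      (crs (R \ allS smp) (dom (M c)) (ran (M c)) A B).card +
      (crs R (X c) (Y c) A B ∩ allS smp).card +
      ((crs R (X c) (Y c) A B).filter fun a => a.1 ∈ X' c).card +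
      ((crs R (X c) (Y c) A B).filter fun a => a.2 ∈ Y' c).card := by
    have h1 := Finset.card_le_card (crs_lost (S := allS smp) (R := R) (hX c) (hY c) A B)
    have h2 := Finset.card_union_le (crs (R \ allS smp) (dom (M c)) (ran (M c)) A B ∪
      (crs R (X c) (Y c) A B ∩ allS smp) ∪
      ((crs R (X c) (Y c) A B).filter fun a => a.1 ∈ X' c))
      ((crs R (X c) (Y c) A B).filter fun a => a.2 ∈ Y' c)
    have h3 := Finset.card_union_le (crs (R \ allS smp) (dom (M c)) (ran (M c)) A B ∪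
      (crs R (X c) (Y c) A B ∩ allS smp))
      ((crs R (X c) (Y c) A B).filter fun a => a.1 ∈ X' c)
    have h4 := Finset.card_union_le (crs (R \ allS smp) (dom (M c)) (ran (M c)) A B)
      (crs R (X c) (Y c) A B ∩ allS smp)
    have h5 := (h1.trans h2).trans (Nat.add_le_add_right (h3.trans (Nat.add_le_add_right h4 _)) _)
    exact_mod_cast h5
  have hQD : (L : ℝ) ^ 2 * Q.card ≤ (L : ℝ) ^ 2 * Q.card * D := by
    have : 0 ≤ (L : ℝ) ^ 2 * Q.card := by positivity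
    nlinarith
  have hw : cq E R (X c) (Y c) L Q ≤ cq E (R \ allS smp) (dom (M c)) (ran (M c)) L Q +
      9 / (L : ℝ) ^ 4 * cq E R (X c) (Y c) L Q + 3 * (L : ℝ) ^ 2 * Q.card * D := by
    have e9 : 9 / (L : ℝ) ^ 4 * cq E R (X c) (Y c) L Q =
        1 / (L : ℝ) ^ 4 * cq E R (X c) (Y c) L Q + 8 / (L : ℝ) ^ 4 * cq E R (X c) (Y c) L Q := by
      ring
    rw [e9]
    have hcqn : ((crs R (X c) (Y c) A B).card : ℝ) = cq E R (X c) (Y c) L Q := hcq.symm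
    have hcqn1 : ((crs (R \ allS smp) (dom (M c)) (ran (M c)) A B).card : ℝ) =
      cq E (R \ allS smp) (dom (M c)) (ran (M c)) L Q := hcq1.symm
    rw [hcqn, hcqn1] at hlost
    linarith
  have hSY : ((Y c ∩ B).card : ℝ) ≤ (ran (M c) ∩ B).card + (Y c ∩ B ∩ Y' c).card := by
    exact_mod_cast size_lost (hY c) B
  have hSX : ((X c ∩ A).card : ℝ) ≤ (dom (M c) ∩ A).card + (X c ∩ A ∩ X' c).card := by
    exact_mod_cast size_lost (hX c) A
  have hSY1 : ((ran (M c) ∩ B).card : ℝ) ≤ (Y c ∩ B).card := by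
    exact_mod_cast Finset.card_le_card (Finset.inter_subset_inter_right hY1)
  have hSX1 : ((dom (M c) ∩ A).card : ℝ) ≤ (X c ∩ A).card := by
    exact_mod_cast Finset.card_le_card (Finset.inter_subset_inter_right hX1)
  have hcrR : ((crs R (X c) (Y c) A B).card : ℝ) =
      (ain R (X c) (Y c) A B).card + (aou R (X c) (Y c) A B).card := by
    exact_mod_cast hcr
  have hcrR1 : ((crs (R \ allS smp) (dom (M c)) (ran (M c)) A B).card : ℝ) =
      (ain (R \ allS smp) (dom (M c)) (ran (M c)) A B).card +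
      (aou (R \ allS smp) (dom (M c)) (ran (M c)) A B).card := by
    exact_mod_cast hcr1
  have hP : (1 + 1 / (L : ℝ) ^ 4) / P' ≤ 3 / (L : ℝ) ^ 4 := by
    have h4 : (2 : ℝ) ≤ (L : ℝ) ^ 4 := by
      calc (2 : ℝ) ≤ (10 ^ 4) ^ 4 := by norm_num
        _ ≤ (L : ℝ) ^ 4 := pow_le_pow_left₀ (by norm_num) hL 4
    have hP0 : (0 : ℝ) < P' := by linarith [hp.s3]
    rw [div_le_div_iff₀ hP0 (by positivity)]
    have e : (1 + 1 / (L : ℝ) ^ 4) * (L : ℝ) ^ 4 = (L : ℝ) ^ 4 + 1 := by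
      field_simp
    rw [e]
    linarith [hp.s3]
  have hk21 := mul_le_mul_of_nonneg_right hk2.1 hD0.le
  have hk22 := mul_le_mul_of_nonneg_right hk2.2 hD0.le
  have eY : ((1 + 1 / (L : ℝ) ^ 4) / P' * (Y c ∩ B).card + (L : ℝ) ^ 6 * Q.card) * D =
      (1 + 1 / (L : ℝ) ^ 4) * (D / P') * (Y c ∩ B).card + (L : ℝ) ^ 6 * Q.card * D := by ring
  have eX : ((1 + 1 / (L : ℝ) ^ 4) / P' * (X c ∩ A).card + (L : ℝ) ^ 6 * Q.card) * D =
      (1 + 1 / (L : ℝ) ^ 4) * (D / P') * (X c ∩ A).card + (L : ℝ) ^ 6 * Q.card * D := by ring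
  rw [eY] at hk21
  rw [eX] at hk22
  refine ⟨hw, ?_, ?_, ?_, ?_⟩
  · have h1 := mul_le_mul_of_nonneg_right hSY hD0.le
    have h2 := mul_le_mul_of_nonneg_right hSX1 hD0.le
    exact ari1 hw hcq hcq1 hcrR hcrR1 hi h1 h2 hk21
  · have h1 := mul_le_mul_of_nonneg_right hSX hD0.le
    have h2 := mul_le_mul_of_nonneg_right hSY1 hD0.le
    exact ari2 hw hcq hcq1 hcrR hcrR1 ho h1 h2 hk22
  · have h1 := mul_le_mul_of_nonneg_right hP (Nat.cast_nonneg (α := ℝ) (Y c ∩ B).card)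
    linarith [hk2.1]
  · have h1 := mul_le_mul_of_nonneg_right hP (Nat.cast_nonneg (α := ℝ) (X c ∩ A).card)
    linarith [hk2.2]

end Pool.Agent.LAP.H75
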