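import Mathlib
import Pool.Agent.Helper23_LAP.Stmts
import Pool.Agent.Helper23_LAP.Basic

/-!
# LAP, module QFT: the tails of a quadratic form
-/

set_option autoImplicit false

namespace Pool.Agent.LAP.H75

open scoped Classical
open Pool.Agent.LAP

variable {U Λ : Type}

theorem cv_cases (rep : Λ → U) (sg : Λ → Bool) (ω : U → Bool) (l : Λ) :
    cv rep sg ω l = 0 ∨ cv rep sg ω l = 1 := by
  unfold cv
  split_ifs <;> simp

theorem cv_congr {rep : Λ → U} {sg : Λ → Bool} {ω ω' : U → Bool} {u : U}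
    (h : ∀ v, v ≠ u → ω v = ω' v) {l : Λ} (hl : rep l ≠ u) :
    cv rep sg ω l = cv rep sg ω' l := by
  unfold cv
  rw [h _ hl]

theorem pair_bd {rep : Λ → U} {sg : Λ → Bool} {ω ω' : U → Bool} {u : U}
    (h : ∀ v, v ≠ u → ω v = ω' v) (M : Finset Λ) (I : Finset (Λ × Λ))
    (hI : ∀ p ∈ I, p.1 ∈ M ∧ p.2 ∈ M) :
    |∑ p ∈ I, cv rep sg ω p.1 * cv rep sg ω p.2 -
      ∑ p ∈ I, cv rep sg ω' p.1 * cv rep sg ω' p.2| ≤
    ∑ l ∈ M.filter (fun l => rep l = u),
      (((I.filter fun p => p.1 = l ∨ p.2 = l).card : ℕ) : ℝ) := by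
  rw [← Finset.sum_sub_distrib]
  refine (Finset.abs_sum_le_sum_abs _ _).trans ?_
  have h1 : ∑ l ∈ M.filter (fun l => rep l = u),
      (((I.filter fun p => p.1 = l ∨ p.2 = l).card : ℕ) : ℝ) =
      ∑ p ∈ I, ∑ l ∈ M.filter (fun l => rep l = u),
        if (p.1 = l ∨ p.2 = l) then (1 : ℝ) else 0 := by
    rw [Finset.sum_comm]
    refine Finset.sum_congr rfl fun l _ => ?_
    rw [Finset.sum_boole]
  rw [h1]
  refine Finset.sum_le_sum fun p hp => ?_
  have hle : |cv rep sg ω p.1 * cv rep sg ω p.2 - cv rep sg ω' p.1 * cv rep sg ω' p.2| ≤ 1 := by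
    rcases cv_cases rep sg ω p.1 with a | a <;> rcases cv_cases rep sg ω p.2 with b | b <;>
      rcases cv_cases rep sg ω' p.1 with c | c <;> rcases cv_cases rep sg ω' p.2 with e | e <;>
      rw [a, b, c, e] <;> norm_num
  have key : ∀ l ∈ M, rep l = u → (p.1 = l ∨ p.2 = l) →
      (1 : ℝ) ≤ ∑ l ∈ M.filter (fun l => rep l = u),
        if (p.1 = l ∨ p.2 = l) then (1 : ℝ) else 0 := by
    intro l hl hu ho
    have h2 := Finset.single_le_sum (s := M.filter (fun l => rep l = u))
      (f := fun l => if (p.1 = l ∨ p.2 = l) then (1 : ℝ) else 0)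
      (fun i _ => by positivity) (Finset.mem_filter.2 ⟨hl, hu⟩)
    simpa [ho] using h2
  by_cases h2 : rep p.1 = u
  · exact hle.trans (key _ (hI p hp).1 h2 (Or.inl rfl))
  by_cases h3 : rep p.2 = u
  · exact hle.trans (key _ (hI p hp).2 h3 (Or.inr rfl))
  rw [cv_congr h h2, cv_congr h h3, sub_self, abs_zero]
  positivity

theorem lin_bd {rep : Λ → U} {sg : Λ → Bool} {ω ω' : U → Bool} {u : U}
    (h : ∀ v, v ≠ u → ω v = ω' v) (M SS CC : Finset Λ) (hS : SS ⊆ M) (hC : CC ⊆ M) :
    |(∑ l ∈ SS, cv rep sg ω l - ∑ l ∈ CC, cv rep sg ω l) -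
      (∑ l ∈ SS, cv rep sg ω' l - ∑ l ∈ CC, cv rep sg ω' l)| ≤
    ∑ l ∈ M.filter (fun l => rep l = u), if l ∈ symmDiff SS CC then (1 : ℝ) else 0 := by
  have e1 : ∀ (T : Finset Λ), T ⊆ M → ∀ ω : U → Bool, ∑ l ∈ T, cv rep sg ω l =
      ∑ l ∈ M, (if l ∈ T then 1 else 0) * cv rep sg ω l := by
    intro T hT ω
    rw [← Finset.sum_subset hT (fun x _ hx => by simp [hx])]
    refine Finset.sum_congr rfl fun l hl => by simp [hl]
  rw [e1 SS hS, e1 CC hC, e1 SS hS, e1 CC hC, ← Finset.sum_sub_distrib,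
    ← Finset.sum_sub_distrib, ← Finset.sum_sub_distrib, Finset.sum_filter]
  refine (Finset.abs_sum_le_sum_abs _ _).trans ?_
  refine Finset.sum_le_sum fun l _ => ?_
  by_cases h2 : rep l = u
  · rw [if_pos h2]
    simp only [Finset.mem_symmDiff]
    rcases cv_cases rep sg ω l with a | a <;> rcases cv_cases rep sg ω' l with b | b <;>
      rw [a, b] <;> by_cases hs : l ∈ SS <;> by_cases hc : l ∈ CC <;> simp [hs, hc]
  · rw [if_neg h2, cv_congr h h2, sub_self, abs_zero]

theorem fib_le {M : Finset Λ} {rep : Λ → U} {sg : Λ → Bool} (hC : Coin M rep sg) (u : U) :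
    (M.filter (fun l => rep l = u)).card ≤ 2 := by
  have : Set.InjOn sg (M.filter (fun l => rep l = u) : Set Λ) := by
    intro l hl l' hl' hs
    simp only [Finset.coe_filter, Set.mem_ofPred_eq] at hl hl'
    by_contra hne
    exact hC l hl.1 l' hl'.1 hne (hl.2.trans hl'.2.symm) hs
  have h2 := Finset.card_le_card_of_injOn (s := M.filter (fun l => rep l = u))
    (t := (Finset.univ : Finset Bool)) sg (fun _ _ => Finset.mem_coe.2 (Finset.mem_univ _)) this
  simpa using h2

theorem qft (hM : MCDStmt) : QFTStmt := by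
  intro U Λ _ _ M rep sg I O SS CC d A s t hC hIO hSS hCC hA hd ht hs hle
  intro f
  set a : Λ → ℝ := fun l => ((((I.filter fun p => p.1 = l ∨ p.2 = l).card : ℕ) : ℝ) +
    ((O.filter fun p => p.1 = l ∨ p.2 = l).card : ℕ)) with ha
  set x : Λ → ℝ := fun l => if l ∈ symmDiff SS CC then (1 : ℝ) else 0 with hx
  have ha0 : ∀ l, 0 ≤ a l := fun l => by rw [ha]; positivity
  have hx0 : ∀ l, 0 ≤ x l := fun l => by rw [hx]; positivity
  have hxx : ∀ l, x l ^ 2 = x l := fun l => by
    rw [hx]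
    dsimp only
    split_ifs <;> norm_num
  refine hM U f (fun u => ∑ l ∈ M.filter (fun l => rep l = u), (a l + d * x l)) s t ?_ ?_ hs ht
  · intro u ω ω' h
    have h1 := pair_bd (rep := rep) (sg := sg) h M I (fun p hp =>
      ⟨(hIO p (Finset.mem_union_left _ hp)).1, (hIO p (Finset.mem_union_left _ hp)).2.1⟩)
    have h2 := pair_bd (rep := rep) (sg := sg) h M O (fun p hp =>
      ⟨(hIO p (Finset.mem_union_right _ hp)).1, (hIO p (Finset.mem_union_right _ hp)).2.1⟩)
    have h3 := lin_bd (rep := rep) (sg := sg) h M SS CC hSS hCC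
    have h4 := mul_le_mul_of_nonneg_left h3 hd
    have e : ∑ l ∈ M.filter (fun l => rep l = u), (a l + d * x l) =
        ∑ l ∈ M.filter (fun l => rep l = u),
          (((I.filter fun p => p.1 = l ∨ p.2 = l).card : ℕ) : ℝ) +
        ∑ l ∈ M.filter (fun l => rep l = u),
          (((O.filter fun p => p.1 = l ∨ p.2 = l).card : ℕ) : ℝ) +
        d * ∑ l ∈ M.filter (fun l => rep l = u), x l := by
      rw [Finset.mul_sum, ← Finset.sum_add_distrib, ← Finset.sum_add_distrib]
    show |f ω - f ω'| ≤ ∑ l ∈ M.filter (fun l => rep l = u), (a l + d * x l)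
    rw [e]
    rw [abs_le] at h1 h2 h3 ⊢
    have h5 := mul_le_mul_of_nonneg_left h3.1 hd
    have h6 := mul_le_mul_of_nonneg_left h3.2 hd
    simp only [f]
    constructor <;> nlinarith [h1.1, h1.2, h2.1, h2.2, h5, h6]
  · have h1 : ∀ u, (∑ l ∈ M.filter (fun l => rep l = u), (a l + d * x l)) ^ 2 ≤
        ∑ l ∈ M.filter (fun l => rep l = u), (4 * A * a l + 4 * d ^ 2 * x l) := by
      intro u
      have h2 : (∑ l ∈ M.filter (fun l => rep l = u), (a l + d * x l)) ^ 2 ≤
          (M.filter (fun l => rep l = u)).card *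
            ∑ l ∈ M.filter (fun l => rep l = u), (a l + d * x l) ^ 2 :=
        sq_sum_le_card_mul_sum_sq
      have h3 : ((M.filter (fun l => rep l = u)).card : ℝ) ≤ 2 := by
        exact_mod_cast fib_le hC u
      have h4 : ∑ l ∈ M.filter (fun l => rep l = u), (a l + d * x l) ^ 2 ≤
          ∑ l ∈ M.filter (fun l => rep l = u), (2 * A * a l + 2 * d ^ 2 * x l) := by
        refine Finset.sum_le_sum fun l hl => ?_
        have h5 : a l ≤ A := hA l (Finset.mem_filter.1 hl).1
        have h6 : a l ^ 2 ≤ A * a l := by nlinarith [ha0 l]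
        have h7 : (d * x l) ^ 2 = d ^ 2 * x l := by rw [mul_pow, hxx]
        nlinarith [sq_nonneg (a l - d * x l)]
      have h0 : 0 ≤ ∑ l ∈ M.filter (fun l => rep l = u), (a l + d * x l) ^ 2 :=
        Finset.sum_nonneg fun l _ => sq_nonneg _
      calc _ ≤ 2 * ∑ l ∈ M.filter (fun l => rep l = u), (a l + d * x l) ^ 2 := by
            nlinarith
        _ ≤ 2 * ∑ l ∈ M.filter (fun l => rep l = u), (2 * A * a l + 2 * d ^ 2 * x l) := by
            linarith
        _ = _ := by
            rw [Finset.mul_sum]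
            refine Finset.sum_congr rfl fun l _ => by ring
    have h2 : ∑ u, (∑ l ∈ M.filter (fun l => rep l = u), (a l + d * x l)) ^ 2 ≤
        ∑ l ∈ M, (4 * A * a l + 4 * d ^ 2 * x l) := by
      refine (Finset.sum_le_sum fun u _ => h1 u).trans (le_of_eq ?_)
      exact Finset.sum_fiberwise M rep (fun l => 4 * A * a l + 4 * d ^ 2 * x l)
    have h3 : ∀ (J : Finset (Λ × Λ)), ∑ l ∈ M,
        (((J.filter fun p => p.1 = l ∨ p.2 = l).card : ℕ) : ℝ) ≤ 2 * J.card := by
      intro J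
      have e1 : ∑ l ∈ M, (((J.filter fun p => p.1 = l ∨ p.2 = l).card : ℕ) : ℝ) =
          ∑ p ∈ J, ∑ l ∈ M, if (p.1 = l ∨ p.2 = l) then (1 : ℝ) else 0 := by
        rw [Finset.sum_comm]
        refine Finset.sum_congr rfl fun l _ => ?_
        rw [Finset.sum_boole]
      rw [e1]
      have e2 : ∀ p ∈ J, (∑ l ∈ M, if (p.1 = l ∨ p.2 = l) then (1 : ℝ) else 0) ≤ 2 := by
        intro p _
        rw [Finset.sum_boole]
        have : (M.filter fun l => p.1 = l ∨ p.2 = l) ⊆ {p.1, p.2} := by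
          intro l hl
          rw [Finset.mem_filter] at hl
          rw [Finset.mem_insert, Finset.mem_singleton]
          exact hl.2.imp Eq.symm Eq.symm
        exact_mod_cast (Finset.card_le_card this).trans Finset.card_le_two
      refine (Finset.sum_le_sum e2).trans ?_
      rw [Finset.sum_const, nsmul_eq_mul, mul_comm]
    have h4 : ∑ l ∈ M, a l ≤ 2 * I.card + 2 * O.card := by
      rw [ha, Finset.sum_add_distrib]
      exact add_le_add (h3 I) (h3 O)
    have h5 : ∑ l ∈ M, x l ≤ (symmDiff SS CC).card := by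
      rw [hx, Finset.sum_boole]
      exact_mod_cast Finset.card_le_card (fun l hl => (Finset.mem_filter.1 hl).2)
    have hA0 : 0 ≤ A ∨ M = ∅ := by
      rcases Finset.eq_empty_or_nonempty M with h | ⟨l, hl⟩
      · exact Or.inr h
      · exact Or.inl ((ha0 l).trans (hA l hl))
    refine h2.trans ?_
    rcases hA0 with hA0 | hM0
    · rw [Finset.sum_add_distrib, ← Finset.mul_sum, ← Finset.mul_sum]
      have h6 := mul_le_mul_of_nonneg_left h4 (by positivity : 0 ≤ 4 * A)
      have h7 := mul_le_mul_of_nonneg_left h5 (by positivity : 0 ≤ 4 * d ^ 2)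
      nlinarith
    · subst hM0
      simp only [Finset.sum_empty]
      exact hs.le

end Pool.Agent.LAP.H75
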